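import Pool.Agent.Helper23.SP.Basic

set_option autoImplicit false

/-!
# Project SP, piece SP-K: averaging
-/

namespace Pool.Agent.Helper92.SP

open Finset

open Classical in
/-- SP-K. -/
theorem averaging {Ω R X : Type} [Fintype Ω] [Fintype R] [Fintype X]
    (ob : Ω → R → Bool) (op : X → Ω → R → Bool) (Mt : X → Ω → Prop) (Rv : Ω → R → Finset X)
    (h1 : ∀ ω, 2 * Fintype.card R ≤ 3 * (univ.filter (fun ρ => ob ω ρ = false)).card)
    (h2 : ∀ x ω, Mt x ω → 2 * Fintype.card R ≤ 3 * (univ.filter (fun ρ => op x ω ρ = true)).card)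
    (h3 : ∀ x, 2 * (univ.filter (fun ω => ¬ Mt x ω)).card ≤ Fintype.card Ω)
    (h4 : ∀ x ω ρ, ob ω ρ ≠ op x ω ρ → x ∈ Rv ω ρ) :
    Fintype.card X * Fintype.card R * Fintype.card Ω ≤ 6 * ∑ ω, ∑ ρ, (Rv ω ρ).card := by
  -- one element and one basic choice
  have key : ∀ x ω, Mt x ω →
      Fintype.card R ≤ 3 * (univ.filter (fun ρ => x ∈ Rv ω ρ)).card := by
    intro x ω hM
    have a1 := h1 ω
    have a2 := h2 x ω hM
    have a3 := card_union_add_card_inter (univ.filter (fun ρ => ob ω ρ = false))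
      (univ.filter (fun ρ => op x ω ρ = true))
    have a4 : ((univ.filter (fun ρ => ob ω ρ = false)) ∪
        (univ.filter (fun ρ => op x ω ρ = true))).card ≤ Fintype.card R := card_le_univ _
    have a5 : ((univ.filter (fun ρ => ob ω ρ = false)) ∩
        (univ.filter (fun ρ => op x ω ρ = true))).card ≤
        (univ.filter (fun ρ => x ∈ Rv ω ρ)).card := by
      apply card_le_card
      intro ρ hρ
      rw [mem_inter, mem_filter, mem_filter] at hρ
      rw [mem_filter]
      refine ⟨mem_univ _, h4 x ω ρ ?_⟩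
      rw [hρ.1.2, hρ.2.2]
      decide
    omega
  -- one element
  have key2 : ∀ x, Fintype.card R * Fintype.card Ω ≤
      6 * ∑ ω, (univ.filter (fun ρ => x ∈ Rv ω ρ)).card := by
    intro x
    have b1 : (univ.filter (fun ω => Mt x ω)).card + (univ.filter (fun ω => ¬ Mt x ω)).card =
        Fintype.card Ω := card_filter_add_card_filter_not _
    have b2 := h3 x
    have b3 : (univ.filter (fun ω => Mt x ω)).card * Fintype.card R ≤
        3 * ∑ ω, (univ.filter (fun ρ => x ∈ Rv ω ρ)).card := by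
      calc (univ.filter (fun ω => Mt x ω)).card * Fintype.card R
          = ∑ _ω ∈ univ.filter (fun ω => Mt x ω), Fintype.card R := by
            rw [sum_const, smul_eq_mul]
        _ ≤ ∑ ω ∈ univ.filter (fun ω => Mt x ω),
            3 * (univ.filter (fun ρ => x ∈ Rv ω ρ)).card := by
            refine sum_le_sum fun ω hω => key x ω (mem_filter.1 hω).2
        _ ≤ ∑ ω, 3 * (univ.filter (fun ρ => x ∈ Rv ω ρ)).card :=
            sum_le_sum_of_subset (filter_subset _ _)
        _ = 3 * ∑ ω, (univ.filter (fun ρ => x ∈ Rv ω ρ)).card := by rw [mul_sum]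
    have b4 : Fintype.card Ω ≤ 2 * (univ.filter (fun ω => Mt x ω)).card := by omega
    calc Fintype.card R * Fintype.card Ω
        ≤ Fintype.card R * (2 * (univ.filter (fun ω => Mt x ω)).card) :=
          Nat.mul_le_mul_left _ b4
      _ = 2 * ((univ.filter (fun ω => Mt x ω)).card * Fintype.card R) := by ring
      _ ≤ 2 * (3 * ∑ ω, (univ.filter (fun ρ => x ∈ Rv ω ρ)).card) := Nat.mul_le_mul_left _ b3
      _ = _ := by ring
  -- double counting
  have key3 : ∑ x, ∑ ω, (univ.filter (fun ρ => x ∈ Rv ω ρ)).card =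
      ∑ ω, ∑ ρ, (Rv ω ρ).card := by
    rw [sum_comm]
    refine sum_congr rfl fun ω _ => ?_
    have : ∀ x, (univ.filter (fun ρ => x ∈ Rv ω ρ)).card =
        ∑ ρ, if x ∈ Rv ω ρ then 1 else 0 := fun x => by rw [card_filter]
    simp_rw [this]
    rw [sum_comm]
    refine sum_congr rfl fun ρ _ => ?_
    rw [← card_filter, filter_mem_eq_inter, univ_inter]
  calc Fintype.card X * Fintype.card R * Fintype.card Ω
      = ∑ _x : X, Fintype.card R * Fintype.card Ω := by
        rw [sum_const, smul_eq_mul, card_univ, mul_assoc]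
    _ ≤ ∑ x, 6 * ∑ ω, (univ.filter (fun ρ => x ∈ Rv ω ρ)).card := sum_le_sum fun x _ => key2 x
    _ = 6 * ∑ ω, ∑ ρ, (Rv ω ρ).card := by rw [← mul_sum, key3]

end Pool.Agent.Helper92.SP

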